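import Pool.Agent.P.MP_3d36e1_mp.Lc.Far
import Pool.Agent.P.MP_97b9bc_mp.T.TWPA
import Pool.Agent.P.MP_97b9bc_mp.T.TWPB

/-! From the classical radial equation to the system, and back to convexity. -/

set_option autoImplicit false

namespace Pool.Agent.P.MP_3d36e1_mp.Lc

open Set Filter Topology MeasureTheory
open MP_97b9bc_mp.T (wOf p_WPA p_WPB)

theorem exists_rad {A γ q μ z : ℝ} {U U1 : ℝ → ℝ} (hA : 0 < A) (hγ : 0 < γ) (hq : 0 < q)
    (hμ : 0 ≤ μ) (hz : 0 < z) (pos : ∀ r, 0 < r → 0 < U r)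
    (L2 : IntegrableOn (fun r => U r ^ 2) (Ioi 0)) (d1 : ∀ r, 0 < r → HasDerivAt U (U1 r) r)
    (d2 : ∀ r, 0 < r → HasDerivAt U1
      ((γ * (U r / r) ^ q - wOf z (fun s => 4 * Real.pi * U s ^ 2) r / r + μ) / A * U r) r)
    (bc : Tendsto (fun r => U r - r * U1 r) (𝓝[>] 0) (𝓝 0)) :
    ∃ X : Rad, X.A = A ∧ X.γ = γ ∧ X.q = q ∧ X.μ = μ ∧ X.z = z ∧
      X.L = z - ∫ r in Ioi (0 : ℝ), 4 * Real.pi * U r ^ 2 ∧ (X.ψ = fun r => U r / r) ∧
      X.w = wOf z fun s => 4 * Real.pi * U s ^ 2 := by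
  have hi : IntegrableOn (fun s => 4 * Real.pi * U s ^ 2) (Ioi 0) := L2.const_mul _
  have hn : ∀ r, 0 < r → 0 ≤ 4 * Real.pi * U r ^ 2 := fun r _ => by positivity
  obtain ⟨-, -, winf, wb⟩ := p_WPA z _ hi hn
  obtain ⟨v, hv, rv⟩ := p_WPB z _ hi hn fun r hr =>
    (continuousAt_const.mul ((d1 r hr).continuousAt.pow 2)).continuousWithinAt
  refine ⟨⟨A, γ, q, μ, z, _, fun r => U r / r, fun r => r⁻¹ - U1 r / U r, _, v, hA, hγ, hq, hμ, hz,
    fun r hr => div_pos (pos r hr) hr, fun r hr => ?_, fun r hr => ?_, fun r hr => (hv r hr).1,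
    fun r hr => ?_, rv, winf, fun r hr => (wb r hr).2, ?_⟩, rfl, rfl, rfl, rfl, rfl, rfl, rfl, rfl⟩
  · have := pos r hr
    exact ((d1 r hr).fun_div (hasDerivAt_id' r) hr.ne').congr_deriv (by field_simp; ring)
  · have := pos r hr
    exact ((hasDerivAt_inv hr.ne').fun_sub
      ((d2 r hr).fun_div (d1 r hr) this.ne')).congr_deriv (by field_simp; ring)
  · exact (hv r hr).2.1.congr_deriv (by field_simp)
  · refine bc.congr' ?_
    filter_upwards [self_mem_nhdsWithin] with r hr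
    have h1 : 0 < r := hr
    have := pos r hr
    field_simp

theorem Rad.extend (X : Rad) : ∃ Ψ : ℝ → ℝ, (∀ r, 0 < r → Ψ r = X.ψ r) ∧
    ContinuousOn Ψ (Ici 0) ∧ (∀ r, 0 ≤ r → 0 < Ψ r) ∧
    (ConvexOn ℝ (Ici 0) (fun r => Real.log (Ψ r)) ↔ ∀ r, 0 < r → 0 ≤ X.k r) := by
  obtain ⟨δ, C, hδ, h⟩ := X.near
  have hb : BddAbove (X.ψ '' Ioi 0) := ⟨C, by
    rintro _ ⟨r, hr, rfl⟩
    rcases le_total r δ with h1 | h1
    · exact (h r hr h1).1
    · exact (X.ψ_anti hδ h1).trans (h δ hδ le_rfl).1⟩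
  have hl := AntitoneOn.tendsto_nhdsGT (f := X.ψ) (x := 0) (fun a ha b _ h => X.ψ_anti ha h) hb
  set Ψ : ℝ → ℝ := fun r => if 0 < r then X.ψ r else sSup (X.ψ '' Ioi 0) with hΨ
  have e : ∀ r, 0 < r → Ψ r = X.ψ r := fun r hr => if_pos hr
  have e' : ∀ r, 0 < r → Ψ =ᶠ[𝓝 r] X.ψ := fun r hr => (lt_mem_nhds hr).mono e
  have hp : ∀ r, 0 ≤ r → 0 < Ψ r := fun r hr => by
    rcases hr.eq_or_lt with rfl | hr
    · simp only [hΨ, lt_irrefl, if_false]
      exact (X.pos 1 one_pos).trans_le (le_csSup hb ⟨1, mem_Ioi.2 one_pos, rfl⟩)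
    · exact e r hr ▸ X.pos r hr
  have hc : ContinuousOn Ψ (Ici 0) := fun r hr => by
    rcases (mem_Ici.1 hr).eq_or_lt with rfl | hr
    · rw [← continuousWithinAt_Ioi_iff_Ici, ContinuousWithinAt]
      simp only [hΨ, lt_irrefl, if_false]
      exact hl.congr' (eventually_mem_nhdsWithin.mono fun s hs => (e s hs).symm)
    · exact ((X.dψ r hr).continuousAt.congr (e' r hr).symm).continuousWithinAt
  have hd : ∀ r, 0 < r → HasDerivAt (fun r => Real.log (Ψ r)) (-X.g r) r := fun r hr => by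
    have h1 := X.pos r hr
    refine (((X.dψ r hr).congr_of_eventuallyEq (e' r hr)).log (hp r hr.le).ne').congr_deriv ?_
    rw [e r hr]
    field_simp
  refine ⟨Ψ, e, hc, hp, fun hk r hr => ?_, fun hk => ?_⟩
  · have hm := (hk.subset Ioi_subset_Ici_self (convex_Ioi 0)).monotoneOn_deriv
      fun s hs => (hd s hs).differentiableAt
    have := left_nonneg (half_lt_self hr) (X.dk0 r hr).fun_neg fun s h1 h2 => by
      have hs := (half_pos hr).trans_le h1
      rw [← (hd s hs).deriv, ← (hd r hr).deriv]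
      exact hm hs hr h2.le
    rwa [neg_neg] at this
  · refine convexOn_of_hasDerivWithinAt2_nonneg (f' := fun r => -X.g r) (f'' := X.k)
      (convex_Ici 0) (hc.log fun r hr => (hp r hr).ne') ?_ ?_ ?_ <;> rw [interior_Ici]
    · exact fun r hr => (hd r hr).hasDerivWithinAt
    · exact fun r hr => ((X.dk0 r hr).fun_neg.congr_deriv (neg_neg _)).hasDerivWithinAt
    · exact hk

end Pool.Agent.P.MP_3d36e1_mp.Lc
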