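import Pool.Agent.P.MP_3d36e1_mp.Lc.Ode

/-! The sign of the second derivative of the logarithm of the root. -/

set_option autoImplicit false

namespace Pool.Agent.P.MP_3d36e1_mp.Lc

open Set Filter Topology
open MP_97b9bc_mp.T (anti anti' maxp)

namespace Rad

variable (X : Rad) {r : ℝ}

lemma W_ge (hr : 0 < r) : -(X.z / r) ≤ X.W r := by
  have h1 := X.ypos hr
  have h2 := X.hμ
  have h3 : X.w r / r ≤ X.z / r := div_le_div_of_nonneg_right (X.wle r hr) hr.le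
  unfold W
  linarith

lemma n_le {B B1 : ℝ → ℝ} {δ : ℝ} (hB : ∀ r, 0 < r → HasDerivAt B (B1 r) r)
    (h0 : ∀ r, 0 < r → 0 ≤ B r) (h : ∀ r, 0 < r → r ≤ δ → X.z / X.A * (r * X.ψ r) ≤ B1 r)
    (hr : 0 < r) (hδ : r ≤ δ) : r ^ 2 * (X.g r * X.ψ r) ≤ B r := by
  refine sub_nonpos.1 (ge_of_tendsto X.n0 ?_)
  filter_upwards [Ioc_mem_nhdsGT hr] with s hs
  have := ant (f := fun r => r ^ 2 * (X.g r * X.ψ r) - B r) hs.1 hs.2
    (fun u hu => (X.dh u hu).fun_sub (hB u hu)) fun u h1 h2 => by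
      have hu := hs.1.trans_le h1
      have h3 := h u hu (h2.le.trans hδ)
      have h4 := X.pos u hu
      have h5 := mul_le_mul_of_nonneg_left (X.W_ge hu)
        (show 0 ≤ u ^ 2 * X.ψ u / X.A from div_nonneg (by positivity) X.hA.le)
      have e : u ^ 2 * X.ψ u / X.A * -(X.z / u) = -(X.z / X.A * (u * X.ψ u)) := by field_simp
      have e2 : u ^ 2 * X.ψ u / X.A * X.W u = u ^ 2 * X.ψ u * X.W u / X.A := by ring
      linarith
  linarith [h0 s hs.1]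

lemma ψ_le {B B1 : ℝ → ℝ} {δ : ℝ} (hB : ∀ r, 0 < r → HasDerivAt B (B1 r) r) (h0 : 0 ≤ B δ)
    (h : ∀ r, 0 < r → r ≤ δ → r ^ 2 * (X.g r * X.ψ r) ≤ r ^ 2 * -B1 r)
    (hr : 0 < r) (hδ : r ≤ δ) : X.ψ r ≤ X.ψ δ + B r := by
  have := mono (f := fun r => X.ψ r - B r) hr hδ (fun u hu => (X.dψ u hu).fun_sub (hB u hu))
    fun u h1 h2 => by
      have hu := hr.trans_le h1
      have := le_of_mul_le_mul_left (h u hu h2.le) (pow_pos hu 2)
      linarith
  linarith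

lemma near : ∃ δ C : ℝ, 0 < δ ∧ ∀ r, 0 < r → r ≤ δ →
    X.ψ r ≤ C ∧ r ^ 2 * (X.g r * X.ψ r) ≤ C * (r * √r) := by
  obtain ⟨b, hb, hb'⟩ := (nhdsGT_basis (0 : ℝ)).eventually_iff.1
    (X.n0.eventually (gt_mem_nhds one_pos))
  set δ := min (b / 2) 1 with hδ
  have hδ0 : 0 < δ := lt_min (half_pos hb) one_pos
  have hδ1 : δ ≤ 1 := min_le_right _ _
  have hp := X.pos δ hδ0
  set a := X.z / X.A with ha
  have ha0 : 0 < a := div_pos X.hz X.hA
  have hs : ∀ r, 0 < r → r ≤ δ → ∃ s, 0 < s ∧ s ≤ 1 ∧ √r = s ∧ r = s ^ 2 := fun r h1 h2 =>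
    ⟨_, Real.sqrt_pos.2 h1, Real.sqrt_le_one.2 (h2.trans hδ1), rfl, (Real.sq_sqrt h1.le).symm⟩
  have s1 : ∀ r, 0 < r → r ≤ δ → r * X.ψ r ≤ X.ψ δ + 1 := fun r h1 h2 => by
    have := X.ψ_le (B := fun r => r⁻¹) (fun r hr => hasDerivAt_inv hr.ne') (by positivity)
      (fun r h1 h2 => by
        rw [neg_neg, mul_inv_cancel₀ (pow_pos h1 2).ne']
        exact (hb' ⟨h1, (h2.trans (min_le_left _ _)).trans_lt (half_lt_self hb)⟩).le) h1 h2
    have := mul_le_mul_of_nonneg_left this h1.le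
    rw [mul_add, mul_inv_cancel₀ h1.ne'] at this
    nlinarith
  set C1 := a * (X.ψ δ + 1) with hC1
  have hC1' : 0 < C1 := by positivity
  have s2 : ∀ r, 0 < r → r ≤ δ → r ^ 2 * (X.g r * X.ψ r) ≤ C1 * r := fun r h1 h2 =>
    X.n_le (B := fun r => C1 * r) (fun r _ => (hasDerivAt_id' r).const_mul C1)
      (fun r hr => by positivity)
      (fun r h1 h2 => by rw [mul_one]; exact mul_le_mul_of_nonneg_left (s1 r h1 h2) ha0.le) h1 h2
  have s3 : ∀ r, 0 < r → r ≤ δ → r * X.ψ r ≤ (X.ψ δ + 2 * C1) * √r := fun r h1 h2 => by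
    have := X.ψ_le (B := fun r => 2 * C1 * (√r)⁻¹) (fun r hr =>
      ((Real.hasDerivAt_sqrt hr.ne').fun_inv (Real.sqrt_pos.2 hr).ne').const_mul (2 * C1))
      (by positivity) (fun r h1 h2 => (s2 r h1 h2).trans (by
        obtain ⟨s, h3, h4, e1, e2⟩ := hs r h1 h2
        rw [e1, e2]
        have e : (s ^ 2) ^ 2 * -(2 * C1 * (-(1 / (2 * s)) / s ^ 2)) = C1 * s := by field_simp
        rw [e]
        exact mul_le_mul_of_nonneg_left (by nlinarith) hC1'.le)) h1 h2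
    have := mul_le_mul_of_nonneg_left this h1.le
    obtain ⟨s, h3, h4, e1, e2⟩ := hs r h1 h2
    rw [e1] at this ⊢
    have e : r * (X.ψ δ + 2 * C1 * s⁻¹) = s ^ 2 * X.ψ δ + 2 * C1 * s := by rw [e2]; field_simp
    have : s ^ 2 * X.ψ δ ≤ s * X.ψ δ := mul_le_mul_of_nonneg_right (by nlinarith) hp.le
    linarith
  set C2 := a * (X.ψ δ + 2 * C1) with hC2
  have hC2' : 0 < C2 := by positivity
  have s4 : ∀ r, 0 < r → r ≤ δ → r ^ 2 * (X.g r * X.ψ r) ≤ C2 * (r * √r) := fun r h1 h2 =>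
    X.n_le (B := fun r => C2 * (r * √r)) (fun r hr =>
      ((hasDerivAt_id' r).fun_mul (Real.hasDerivAt_sqrt hr.ne')).const_mul C2)
      (fun r hr => by positivity) (fun r h1 h2 => by
        have h3 := mul_le_mul_of_nonneg_left (s3 r h1 h2) ha0.le
        have h4 : 0 ≤ C2 * (r * (1 / (2 * √r))) := by positivity
        rw [← mul_assoc a _ √r] at h3
        linarith) h1 h2
  refine ⟨δ, X.ψ δ + 2 * C2, hδ0, fun r h1 h2 => ⟨?_, (s4 r h1 h2).trans ?_⟩⟩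
  · have := X.ψ_le (B := fun r => 2 * C2 * (1 - √r)) (fun r hr =>
      ((Real.hasDerivAt_sqrt hr.ne').const_sub 1).const_mul (2 * C2))
      (mul_nonneg (by positivity) (sub_nonneg.2 (Real.sqrt_le_one.2 hδ1)))
      (fun r h1 h2 => (s4 r h1 h2).trans (by
        obtain ⟨s, h3, h4, e1, e2⟩ := hs r h1 h2
        rw [e1, e2]
        apply le_of_eq
        field_simp)) h1 h2
    have h3 : 0 ≤ 2 * C2 * √r := by positivity
    linarith
  · exact mul_le_mul_of_nonneg_right (by linarith) (by positivity)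

lemma G_near {m : ℝ} (hm : 0 < m) (hr : 0 < r) : ∃ ε, 0 < ε ∧ ε < r ∧ -m ≤ X.G ε := by
  obtain ⟨δ, C, hδ, h⟩ := X.near
  have hA := X.hA
  have hz := X.hz
  have hc : Tendsto (fun s : ℝ => (X.z / X.A + 1) * C ^ 2 * s) (𝓝[>] 0) (𝓝 0) := by
    have : Continuous fun s : ℝ => (X.z / X.A + 1) * C ^ 2 * s := by fun_prop
    simpa using (this.tendsto 0).mono_left nhdsWithin_le_nhds
  obtain ⟨ε, ⟨h1, h2⟩, h3⟩ := (((hc.eventually (gt_mem_nhds hm)).and (Ioo_mem_nhdsGT hr)).and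
    (Ioc_mem_nhdsGT hδ)).exists
  have hε := h2.1
  obtain ⟨h4, h5⟩ := h ε hε h3.2
  have hp := X.pos ε hε
  have hg := X.g_nonneg hε
  refine ⟨ε, hε, h2.2, ?_⟩
  have h6 : (ε ^ 2 * (X.g ε * X.ψ ε)) ^ 2 ≤ (C * (ε * √ε)) ^ 2 :=
    pow_le_pow_left₀ (by positivity) h5 2
  rw [mul_pow C, mul_pow ε, Real.sq_sqrt hε.le] at h6
  have h7 : ε ^ 2 * X.ψ ε ^ 2 * X.g ε ^ 2 ≤ C ^ 2 * ε :=
    le_of_mul_le_mul_left (by linarith) (pow_pos hε 2)
  have h8 := mul_le_mul_of_nonneg_left (X.W_ge hε)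
    (show 0 ≤ ε ^ 2 * X.ψ ε ^ 2 / X.A by positivity)
  have e : ε ^ 2 * X.ψ ε ^ 2 / X.A * -(X.z / ε) = -(X.z / X.A * ε * X.ψ ε ^ 2) := by field_simp
  have h9 : X.z / X.A * ε * X.ψ ε ^ 2 ≤ X.z / X.A * ε * C ^ 2 := by gcongr
  have h10 : 0 ≤ ε ^ 2 * X.ψ ε ^ 2 * (2 * X.g ε / ε) := by positivity
  have e2 : X.G ε = ε ^ 2 * X.ψ ε ^ 2 / X.A * X.W ε + ε ^ 2 * X.ψ ε ^ 2 * (2 * X.g ε / ε) -
      ε ^ 2 * X.ψ ε ^ 2 * X.g ε ^ 2 := by unfold G k; ring
  linarith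

lemma G_nonneg_iff (hr : 0 < r) : 0 ≤ X.G r ↔ 0 ≤ X.k r :=
  mul_nonneg_iff_of_pos_left (mul_pos (pow_pos hr 2) (pow_pos (X.pos r hr) 2))

lemma J1_nonneg (hq : X.q ≤ 4 / 3) (hr : 0 < r) (hk : 0 ≤ X.k r) (hF : 0 ≤ X.F r) (hJ : 0 ≤ X.J r) :
    0 ≤ (2 - X.q) * X.g r * X.J r + X.Y r *
      ((2 - 2 * X.q) * X.g r * X.k r + 2 * X.g r / r ^ 2 + X.F r / (X.A * r ^ 2)) := by
  have hg := X.g_nonneg hr
  have hY := X.Ypos hr
  have hA := X.hA
  rcases le_total X.q 1 with h | h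
  · have h1 : 0 ≤ 2 - X.q := by linarith
    have h2 : 0 ≤ 2 - 2 * X.q := by linarith
    positivity
  · have h1 : 0 ≤ 4 - 3 * X.q := by linarith
    have h2 : 0 ≤ (2 - X.q) * (X.q * X.g r ^ 2 - 2 * X.g r * r⁻¹) + 2 * r⁻¹ ^ 2 := by
      have h3 : 0 ≤ (2 - X.q) * (X.g r - r⁻¹) ^ 2 := mul_nonneg (by linarith) (sq_nonneg _)
      have h4 : 0 ≤ (2 - X.q) * (X.q - 1) * X.g r ^ 2 :=
        mul_nonneg (mul_nonneg (by linarith) (by linarith)) (sq_nonneg _)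
      have h5 : 0 ≤ X.q * r⁻¹ ^ 2 := mul_nonneg (by linarith) (sq_nonneg _)
      linarith
    have e : (2 - X.q) * X.g r * X.J r + X.Y r *
        ((2 - 2 * X.q) * X.g r * X.k r + 2 * X.g r / r ^ 2 + X.F r / (X.A * r ^ 2)) =
        X.Y r * ((4 - 3 * X.q) * X.g r * X.k r + X.g r * ((2 - X.q) *
          (X.q * X.g r ^ 2 - 2 * X.g r * r⁻¹) + 2 * r⁻¹ ^ 2) + X.F r / (X.A * r ^ 2)) := by
      unfold J; ring
    rw [e]
    positivity

/-- the forward invariant region is never entered -/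
lemma no_entry (hq : X.q ≤ 4 / 3) {b : ℝ} (hb : 0 < b) (hk : 0 ≤ X.k b) (hF : 0 ≤ X.F b)
    (hJ : 4 * Real.pi < X.q * X.J b) : False := by
  have hA := X.hA
  have hπ := Real.pi_pos
  have hF1 : ∀ t, 0 < t → 0 ≤ X.k t → 0 < X.q * X.J t - 4 * Real.pi → 0 < X.F1 t :=
    fun t ht h1 h2 => by
      have := X.pos t ht
      unfold F1
      positivity
  have cF : ∀ r, 0 < r → ContinuousAt (fun r => min (X.F1 r) (X.q * X.J r - 4 * Real.pi)) r :=
    fun r hr => by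
      have c1 := ((X.dJ r hr).continuousAt.const_mul X.q).sub_const (4 * Real.pi)
      exact (((X.dk r hr).continuousAt.const_mul (2 * X.A)).add
        ((X.dm r hr).continuousAt.mul c1)).min c1
  have step : ∀ t, b ≤ t → (∀ s, b ≤ s → s < t → 0 < X.F1 s) →
      ∀ s, b ≤ s → s ≤ t → 0 ≤ X.F s ∧ 0 ≤ X.k s := fun t _ h => by
    have h1 : ∀ s, b ≤ s → s ≤ t → 0 ≤ X.F s := fun s h1 h2 =>
      hF.trans (mono hb h1 X.dF fun u h3 h4 => (h u h3 (h4.trans_le h2)).le)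
    exact fun s h2 h3 => ⟨h1 s h2 h3, (X.G_nonneg_iff (hb.trans_le h2)).1
      (((X.G_nonneg_iff hb).2 hk).trans (mono hb h2 X.dG fun u h4 h5 =>
        div_nonneg (mul_nonneg (sq_nonneg _) (h1 u h4 (h5.le.trans h3))) hA.le))⟩
  have key := stay hb cF fun t ht h => by
    have h1 := step t ht fun s h1 h2 => (lt_min_iff.1 (h s h1 h2)).1
    have h2 : X.J b ≤ X.J t := mono hb ht X.dJ fun s h2 h3 =>
      X.J1_nonneg hq (hb.trans_le h2) (h1 s h2 h3.le).2 (h1 s h2 h3.le).1 (by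
        have := (lt_min_iff.1 (h s h2 h3)).2
        exact nonneg_of_mul_nonneg_right (a := X.q) (by linarith) X.hq)
    have h3 : 0 < X.q * X.J t - 4 * Real.pi := by
      have := mul_le_mul_of_nonneg_left h2 X.hq.le
      linarith
    exact lt_min (hF1 t (hb.trans_le ht) (h1 t ht le_rfl).2 h3) h3
  have h1 : ∀ s, b ≤ s → 0 < X.F1 s := fun s hs => (lt_min_iff.1 (key s hs)).1
  have h2 : ∀ s, b < s → 0 < X.F s := fun s hs =>
    hF.trans_lt (smono hb hs X.dF fun u h3 _ => h1 u h3.le)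
  have h3 : ∀ s, b < s → 0 < X.ψ s ^ 2 * X.F s / X.A := fun s hs =>
    div_pos (mul_pos (pow_pos (X.pos s (hb.trans hs)) 2) (h2 s hs)) hA
  have h4 : 0 < X.G (b + 1) := ((X.G_nonneg_iff hb).2 hk).trans_lt
    (smono hb (lt_add_one b) X.dG fun u h _ => h3 u h)
  obtain ⟨R, hR⟩ := eventually_atTop.1 (X.Wlim.eventually (gt_mem_nhds (lt_add_one X.μ)))
  have hK : 0 < (X.μ + 1) / X.A + 1 := by have := X.hμ; positivity
  obtain ⟨s, h5, h6⟩ := X.small (div_pos h4 hK) (lt_max_of_lt_right (lt_max_of_lt_right one_pos) :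
    0 < max R (max (b + 1) 1))
  have h7 : b + 1 ≤ s := ((le_max_left _ _).trans (le_max_right _ _)).trans h5
  have h8 : 1 ≤ s := ((le_max_right _ _).trans (le_max_right _ _)).trans h5
  have h9 : X.G (b + 1) ≤ X.G s :=
    mono (by linarith) h7 X.dG fun u h _ => (h3 u (by linarith)).le
  have h10 : X.k s ≤ (X.μ + 1) / X.A + 1 := by
    have a1 : X.W s / X.A ≤ (X.μ + 1) / X.A :=
      div_le_div_of_nonneg_right (hR s ((le_max_left _ _).trans h5)).le hA.le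
    have a2 : 2 * X.g s / s ≤ 2 * X.g s :=
      div_le_self (mul_nonneg zero_le_two (X.g_nonneg (by linarith))) h8
    unfold k
    nlinarith [sq_nonneg (X.g s - 1)]
  rw [lt_div_iff₀ hK] at h6
  have := mul_le_mul_of_nonneg_left h10 (show 0 ≤ s ^ 2 * X.ψ s ^ 2 by positivity)
  unfold G at h9 h6
  linarith

/-- once negative, `k` stays negative -/
theorem no_return (hq' : X.q ≤ 4 / 3) {r t : ℝ} (hr : 0 < r) (hk : X.k r < 0) (ht : r ≤ t) :
    X.k t < 0 := by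
  by_contra hn
  have hA := X.hA
  have hq := X.hq
  have hG : 0 < -X.G r / 2 := by
    have := mt (X.G_nonneg_iff hr).1 (not_le.2 hk)
    linarith
  obtain ⟨ε, hε, h1, h2⟩ := X.G_near hG hr
  obtain ⟨c, hc1, hc2, hc3, hc4, hc5⟩ := maxp (f := fun s => -X.G s - -X.G r / 2)
    (f' := fun s => -(X.ψ s ^ 2 * X.F s / X.A))
    (f'' := fun s => -((2 * X.ψ s * -(X.g s * X.ψ s) * X.F s + X.ψ s ^ 2 * X.F1 s) / X.A))
    (⟨h1.le, ht⟩ : r ∈ Icc ε t) (fun s hs _ => (X.dG s (hε.trans_le hs)).fun_neg.sub_const _)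
    (fun s hs _ => by
      simpa using ((((X.dψ s (hε.trans_le hs)).fun_pow 2).fun_mul
        (X.dF s (hε.trans_le hs))).div_const X.A).fun_neg)
    (by linarith) (by
      have := (X.G_nonneg_iff (hr.trans_le ht)).2 (not_lt.1 hn)
      linarith) (by linarith)
  have hc := hε.trans hc1
  have hp := pow_pos (X.pos c hc) 2
  have hkc : X.k c < 0 := not_le.1 fun h => by
    have := (X.G_nonneg_iff hc).2 h
    linarith
  have hFc : X.F c = 0 := by
    simpa [hA.ne', (X.pos c hc).ne'] using hc4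
  rw [hFc, mul_zero, zero_add, neg_nonpos, div_nonneg_iff] at hc5
  have hF1 : 0 ≤ X.F1 c := by
    rcases hc5 with h | h
    · exact nonneg_of_mul_nonneg_right h.1 hp
    · linarith [h.2]
  have hJc : 4 * Real.pi < X.q * X.J c := by
    by_contra h
    have := mul_nonpos_of_nonneg_of_nonpos (show 0 ≤ c ^ 2 * X.ψ c ^ 2 by positivity)
      (sub_nonpos.2 (not_lt.1 h))
    have := mul_neg_of_pos_of_neg (show 0 < 2 * X.A by positivity) hkc
    unfold F1 at hF1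
    linarith
  obtain ⟨b, hb1, hb2, hb3⟩ := first (f := fun s => -X.k s) hc
    (fun s hs => (X.dk s hs).continuousAt.neg) hc2.le (neg_nonpos.2 (not_lt.1 hn))
  have hb := hc.trans_le hb1
  have hkb : 0 ≤ X.k b := neg_nonpos.1 hb2
  have hcb : c < b := lt_of_le_of_ne hb1 fun e => by rw [← e] at hkb; linarith
  have eJ : ∀ s, X.J s = X.Y s * X.k s + X.Y s * (X.g s * (X.q * X.g s - 2 / s)) := fun s => by
    unfold J; ring
  have hYc := X.Ypos hc
  have hgc := X.g_nonneg hc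
  have hS : 4 * Real.pi < X.q * (X.Y c * (X.g c * (X.q * X.g c - 2 / c))) := by
    have := mul_neg_of_pos_of_neg hq (mul_neg_of_pos_of_neg hYc hkc)
    rw [eJ, mul_add] at hJc
    linarith
  have hS0 : 0 ≤ X.q * X.g c - 2 / c := by
    by_contra h
    have := mul_nonpos_of_nonneg_of_nonpos hq.le (mul_nonpos_of_nonneg_of_nonpos hYc.le
      (mul_nonpos_of_nonneg_of_nonpos hgc (not_le.1 h).le))
    linarith [Real.pi_pos]
  have hg : X.g c ≤ X.g b := mono hc hb1 X.dk0 fun s h3 h4 => (hb3 s h3 h4).le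
  have hY : X.Y c ≤ X.Y b := mono hc hb1 X.dY fun s h3 _ => mul_nonneg (mul_nonneg
    (by linarith) (X.g_nonneg (hc.trans_le h3))) (X.Ypos (hc.trans_le h3)).le
  have hYb := X.Ypos hb
  refine X.no_entry hq' hb hkb ?_ (hS.trans_le (mul_le_mul_of_nonneg_left ?_ hq.le))
  · have := left_nonneg hcb (X.dG b hb) fun s h3 h4 =>
      (not_le.1 (mt (X.G_nonneg_iff (hc.trans_le h3)).1 (not_le.2 (neg_pos.1 (hb3 s h3 h4))))).le.trans
        ((X.G_nonneg_iff hb).2 hkb)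
    exact nonneg_of_mul_nonneg_right (nonneg_of_mul_nonneg_left (a := _) this (inv_pos.2 hA))
      (pow_pos (X.pos b hb) 2)
  · rw [eJ]
    refine le_add_of_nonneg_of_le (by positivity) ?_
    gcongr
    exact hgc.trans hg

end Rad

end Pool.Agent.P.MP_3d36e1_mp.Lc
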