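import Pool.Agent.P.MP_3d36e1_mp.Lc.Core

/-! Behaviour far from the nucleus and the criterion. -/

set_option autoImplicit false

namespace Pool.Agent.P.MP_3d36e1_mp.Lc

open Set Filter Topology
open MP_97b9bc_mp.T (anti anti' maxp)

namespace Rad

variable (X : Rad)

/-- decay rate -/
noncomputable def κ : ℝ := √(X.μ / X.A)

lemma κ_sq : X.κ ^ 2 = X.μ / X.A := Real.sq_sqrt (div_nonneg X.hμ X.hA.le)

lemma κ_eq : 2 * √(X.A * X.μ) = 2 * X.A * X.κ := by
  have := X.hA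
  rw [show X.A * X.μ = X.A ^ 2 * (X.μ / X.A) by field_simp, Real.sqrt_mul (sq_nonneg _),
    Real.sqrt_sq this.le, mul_assoc, κ]

lemma k_eq {r : ℝ} (hr : 0 < r) : -X.k r = (X.g r - X.κ) * (X.g r + X.κ - 2 / r) +
    (X.w r - 2 * X.A * X.κ - r * X.y r) / (X.A * r) := by
  have := X.hA
  have e : X.μ = X.A * X.κ ^ 2 := by rw [κ_sq]; field_simp
  unfold k W
  rw [e]
  field_simp
  ring

lemma WA : Tendsto (fun r => X.W r / X.A) atTop (𝓝 (X.κ ^ 2)) := X.κ_sq ▸ X.Wlim.div_const X.A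

lemma g_le {R : ℝ} (hR : 0 < R) (h : ∀ r, R ≤ r → X.k r < 0) {r : ℝ} (hr : R ≤ r) :
    X.g r ≤ X.κ := by
  by_contra hn
  push Not at hn
  have hκ : 0 ≤ X.κ := Real.sqrt_nonneg _
  have h0 := hκ.trans_lt hn
  have hr0 := hR.trans_le hr
  set d := (X.g r ^ 2 - X.κ ^ 2) / 4 with hd
  have hd0 : 0 < d := by rw [hd]; nlinarith
  obtain ⟨S, hS⟩ := eventually_atTop.1 (((X.WA.eventually (gt_mem_nhds
    (show X.κ ^ 2 < X.κ ^ 2 + d by linarith))).and ((tendsto_const_nhds.div_atTop tendsto_id :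
      Tendsto (fun s : ℝ => 2 / s) atTop (𝓝 0)).eventually
        (gt_mem_nhds (show 0 < d / X.g r by positivity)))).and (eventually_ge_atTop r))
  have hg : ∀ s, r ≤ s → X.g r ≤ X.g s := fun s hs =>
    mono hr0 hs X.dk0 fun u h1 _ => (neg_pos.2 (h u (hr.trans h1))).le
  have hS0 := hr0.trans_le (hS S le_rfl).2
  obtain ⟨s, h1, h2⟩ := sink (f := fun s => (X.g s)⁻¹) (η := 2 * d / X.g r ^ 2) hS0
    (by positivity) (fun s hs => (X.dk0 s (hS0.trans_le hs)).fun_inv
      (h0.trans_le (hg s (hS s hs).2)).ne') (fun s hs => by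
        obtain ⟨⟨a1, a2⟩, a3⟩ := hS s hs
        have a4 := hg s a3
        have a5 := h0.trans_le a4
        rw [div_le_iff₀ (pow_pos a5 2)]
        obtain ⟨t, ht, e⟩ : ∃ t, 1 ≤ t ∧ X.g s = t * X.g r :=
          ⟨X.g s / X.g r, (one_le_div h0).2 a4, by field_simp⟩
        have b1 := mul_le_mul_of_nonneg_left a2.le a5.le
        have e1 : X.g s * (d / X.g r) = t * d := by rw [e]; field_simp
        have e2 : -(2 * d / X.g r ^ 2) * X.g s ^ 2 = -(2 * d * t ^ 2) := by rw [e]; field_simp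
        have e3 : X.g s ^ 2 = t ^ 2 * (X.κ ^ 2 + 4 * d) := by rw [e, hd]; ring
        have e4 : 2 * X.g s / s = X.g s * (2 / s) := by ring
        have t2 : t ≤ t ^ 2 := by nlinarith
        have b2 := mul_le_mul_of_nonneg_right (ht.trans t2) (sq_nonneg X.κ)
        have b3 := mul_le_mul_of_nonneg_right (ht.trans t2) hd0.le
        have b4 := mul_le_mul_of_nonneg_right t2 hd0.le
        unfold k
        linarith) 0
  exact absurd h2 (not_lt.2 (inv_nonneg.2 (X.g_nonneg (hS0.trans_le h1))))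

lemma tail {R g0 : ℝ} (hR : 0 < R) (h0 : 0 < g0) (h1 : 1 ≤ g0 * R) (h : ∀ r, R ≤ r → g0 ≤ X.g r)
    {r : ℝ} (hr : R ≤ r) : X.w r - X.L ≤ 4 * Real.pi / g0 ^ 2 * (r * X.ψ r ^ 2) := by
  have hπ := Real.pi_pos
  have dT : ∀ s, 0 < s → HasDerivAt (fun s => s * X.ψ s ^ 2) ((1 - 2 * X.g s * s) * X.ψ s ^ 2) s :=
    fun s hs => ((hasDerivAt_id' s).fun_mul ((X.dψ s hs).fun_pow 2)).congr_deriv
      (by push_cast; ring)
  have hT : ∀ s, R ≤ s → (1 - 2 * X.g s * s) * X.ψ s ^ 2 ≤ -(g0 * (s * X.ψ s ^ 2)) := fun s hs => by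
    have a1 := mul_le_mul_of_nonneg_left hs h0.le
    have a2 := mul_le_mul_of_nonneg_right (h s hs) (hR.le.trans hs)
    have := mul_le_mul_of_nonneg_right (show 1 - 2 * X.g s * s ≤ -(g0 * s) by linarith)
      (sq_nonneg (X.ψ s))
    linarith
  have hv : Tendsto X.v atTop (𝓝 0) := by
    refine (X.rv.div_atTop tendsto_id).congr' ?_
    filter_upwards [eventually_gt_atTop 0] with s hs
    exact mul_div_cancel_left₀ _ hs.ne'
  have a1 : ∀ s, R ≤ s → 0 ≤ X.v s + 4 * Real.pi / g0 * (s * X.ψ s ^ 2) := fun s hs => by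
    refine le_of_tendsto hv ?_
    filter_upwards [eventually_ge_atTop s] with t ht
    have hs0 := hR.trans_le hs
    have := ant (f := fun s => X.v s + 4 * Real.pi / g0 * (s * X.ψ s ^ 2)) hs0 ht
      (fun u hu => (X.dv u hu).fun_add ((dT u hu).const_mul _)) fun u h2 _ => by
        have := mul_le_mul_of_nonneg_left (hT u (hs.trans h2)) (show 0 ≤ 4 * Real.pi / g0 by
          positivity)
        have e : 4 * Real.pi / g0 * -(g0 * (u * X.ψ u ^ 2)) = -(4 * Real.pi * u * X.ψ u ^ 2) := by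
          field_simp
        linarith
    have h3 : 0 ≤ 4 * Real.pi / g0 * (t * X.ψ t ^ 2) := by
      have := hs0.trans_le ht
      positivity
    linarith
  refine sub_le_comm.1 (ge_of_tendsto X.winf ?_)
  filter_upwards [eventually_ge_atTop r] with t ht
  have hr0 := hR.trans_le hr
  have := mono (f := fun s => X.w s - 4 * Real.pi / g0 ^ 2 * (s * X.ψ s ^ 2)) hr0 ht
    (fun u hu => (X.dw u hu).fun_sub ((dT u hu).const_mul _)) fun u h2 _ => by
      have := mul_le_mul_of_nonneg_left (hT u (hr.trans h2)) (show 0 ≤ 4 * Real.pi / g0 ^ 2 by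
        positivity)
      have e : 4 * Real.pi / g0 ^ 2 * -(g0 * (u * X.ψ u ^ 2)) =
          -(4 * Real.pi / g0 * (u * X.ψ u ^ 2)) := by field_simp
      linarith [a1 u (hr.trans h2)]
  have h3 : 0 ≤ 4 * Real.pi / g0 ^ 2 * (t * X.ψ t ^ 2) := by
    have := hr0.trans_le ht
    positivity
  linarith

theorem of_neg (hq : X.q ≤ 4 / 3) {R : ℝ} (hR : 0 < R) (hk : X.k R < 0) :
    X.μ ≠ 0 ∧ 2 * X.A * X.κ < X.L := by
  have h : ∀ r, R ≤ r → X.k r < 0 := fun r hr => X.no_return hq hR hk hr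
  have hA := X.hA
  set g0 := X.g (R + 1) with hg0
  have h0 : 0 < g0 := (X.g_nonneg hR).trans_lt
    (smono hR (lt_add_one R) X.dk0 fun s hs _ => neg_pos.2 (h s hs.le))
  have hκ : g0 ≤ X.κ := X.g_le hR h (by linarith)
  refine ⟨fun e => ?_, not_le.1 fun hn => ?_⟩
  · rw [κ, e, zero_div, Real.sqrt_zero] at hκ
    linarith
  set S := R + 1 + 1 / g0 with hS
  have hS1 : R + 1 ≤ S := le_add_of_nonneg_right (by positivity)
  have hS0 : 0 < S := by linarith
  have hS2 : 1 ≤ g0 * S := by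
    have : g0 * S = g0 * (R + 1) + 1 := by rw [hS]; field_simp
    have : 0 ≤ g0 * (R + 1) := by positivity
    linarith
  have hg : ∀ s, S ≤ s → g0 ≤ X.g s := fun s hs =>
    mono (by linarith) (hS1.trans hs) X.dk0 fun u h1 _ => (neg_pos.2 (h u (by linarith))).le
  have hYS := X.Ypos hS0
  obtain ⟨s, h1, h2⟩ := sink (f := fun s => -X.Y s) (η := 2 / 3 * g0 * X.Y S) hS0 (by positivity)
    (fun s hs => (X.dY s (hS0.trans_le hs)).fun_neg) (fun s hs => neg_le_neg (by
      have a1 : X.Y S ≤ X.Y s := mono hS0 hs X.dY fun u h3 _ => mul_nonneg (mul_nonneg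
        (by linarith) (h0.le.trans (hg u h3))) (X.Ypos (hS0.trans_le h3)).le
      have a2 := hg s hs
      have a3 : 2 / 3 ≤ 2 - X.q := by linarith
      have := h0.le.trans a2
      gcongr)) (-(4 * Real.pi / g0 ^ 2))
  have hs := hS0.trans_le h1
  have hp := X.pos s hs
  have a1 := X.tail hS0 h0 hS2 hg h1
  have a2 := mul_le_mul_of_nonneg_right (neg_lt_neg_iff.1 h2).le
    (show 0 ≤ s * X.ψ s ^ 2 by positivity)
  have e : X.Y s * (s * X.ψ s ^ 2) = s * X.y s := by unfold Y; field_simp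
  have a3 : (X.w s - 2 * X.A * X.κ - s * X.y s) / (X.A * s) ≤ 0 :=
    div_nonpos_of_nonpos_of_nonneg (by linarith) (by positivity)
  have a4 : 2 / s ≤ 2 * g0 := by
    rw [div_le_iff₀ hs]
    nlinarith [mul_le_mul_of_nonneg_left h1 h0.le]
  have a5 := mul_nonpos_of_nonpos_of_nonneg (sub_nonpos.2 (X.g_le hR h
    (show R ≤ s by linarith))) (show 0 ≤ X.g s + X.κ - 2 / s by linarith [hg s h1])
  have a6 := X.k_eq hs
  linarith [h s (by linarith)]

theorem of_nonneg (h : ∀ r, 0 < r → 0 ≤ X.k r) (hμ : X.μ ≠ 0) : X.L ≤ 2 * X.A * X.κ := by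
  have hA := X.hA
  have hq := X.hq
  have hκ : 0 < X.κ := Real.sqrt_pos.2 (div_pos (lt_of_le_of_ne X.hμ hμ.symm) hA)
  have hg : ∀ r, 0 < r → X.κ ≤ X.g r := fun r hr => by
    by_contra hn
    push Not at hn
    have h0 := X.g_nonneg hr
    have hd : 0 < (X.κ ^ 2 - X.g r ^ 2) / 2 := by nlinarith
    obtain ⟨S, hS⟩ := eventually_atTop.1 ((X.WA.eventually (lt_mem_nhds
      (show X.κ ^ 2 - (X.κ ^ 2 - X.g r ^ 2) / 2 < X.κ ^ 2 by linarith))).and
        (eventually_ge_atTop r))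
    have hS0 := hr.trans_le (hS S le_rfl).2
    obtain ⟨s, h1, h2⟩ := sink hS0 hd (fun s hs => X.dk0 s (hS0.trans_le hs)) (fun s hs => by
      have hs0 := hS0.trans_le hs
      have a1 := X.g_nonneg hs0
      have a2 : X.g s ^ 2 ≤ X.g r ^ 2 := pow_le_pow_left₀ a1
        (ant hr (hS s hs).2 X.dk0 fun u h3 _ => neg_nonpos.2 (h u (hr.trans_le h3))) 2
      have a3 : 0 ≤ 2 * X.g s / s := by positivity
      unfold k
      linarith [(hS s hs).1]) 0
    exact absurd h2 (not_lt.2 (X.g_nonneg (hS0.trans_le h1)))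
  by_contra hn
  push Not at hn
  set S := 2 / (X.q * X.κ) with hS
  have hS0 : 0 < S := by positivity
  have hy : Tendsto (fun s => s * X.y s) atTop (𝓝 0) := by
    refine squeeze_zero' ?_ ?_ (tendsto_const_nhds (x := S ^ 2 * X.y S).div_atTop tendsto_id)
    · filter_upwards [eventually_gt_atTop 0] with s hs using (mul_pos hs (X.ypos hs)).le
    · filter_upwards [eventually_ge_atTop S] with s hs
      have := ant (f := fun s => s ^ 2 * X.y s) hS0 hs
        (fun u hu => ((hasDerivAt_id' u).fun_pow 2).fun_mul (X.dy u hu)) fun u h1 _ => by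
          have hu := hS0.trans_le h1
          have a1 := (div_le_iff₀ (mul_pos hq hκ)).1 h1
          have a2 := mul_le_mul_of_nonneg_left (hg u hu) (mul_pos hu hq).le
          have := mul_le_mul_of_nonneg_right (show 2 ≤ u * X.q * X.g u by linarith)
            (mul_pos hu (X.ypos hu)).le
          push_cast
          linarith
      rw [id, le_div_iff₀ (hS0.trans_le hs)]
      linarith
  have h1 := (X.winf.sub_const (2 * X.A * X.κ)).sub hy
  obtain ⟨s, ⟨a1, a2⟩, a3⟩ := (((h1.eventually (lt_mem_nhds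
    (show 0 < X.L - 2 * X.A * X.κ - 0 by linarith))).and (eventually_ge_atTop (1 / X.κ))).and
      (eventually_gt_atTop 0)).exists
  have a4 : 2 / s ≤ 2 * X.κ := by
    rw [div_le_iff₀ a3]
    have := (div_le_iff₀ hκ).1 a2
    linarith
  have a5 := mul_nonneg (sub_nonneg.2 (hg s a3))
    (show 0 ≤ X.g s + X.κ - 2 / s by linarith [hg s a3])
  have a6 := div_pos a1 (mul_pos hA a3)
  linarith [X.k_eq a3, h s a3]

theorem criterion (hq : X.q ≤ 4 / 3) :
    (∀ r, 0 < r → 0 ≤ X.k r) ↔ X.μ = 0 ∨ X.L ≤ 2 * √(X.A * X.μ) := by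
  rw [κ_eq]
  refine ⟨fun h => or_iff_not_imp_left.2 (X.of_nonneg h), fun h r hr => not_lt.1 fun hk => ?_⟩
  obtain ⟨h1, h2⟩ := X.of_neg hq hr hk
  exact h.elim h1 (not_le.2 h2)

end Rad

end Pool.Agent.P.MP_3d36e1_mp.Lc
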