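import Pool.Agent.P.MP_3d36e1_mp.Lc.Link

/-! The criterion for the root of a minimiser. -/

set_option autoImplicit false

namespace Pool.Agent.P.MP_3d36e1_mp.Lc

open Set Filter Topology MeasureTheory
open MP_97b9bc_mp.T (wOf)

theorem Rad.equation (X : Rad) {Ψ : ℝ → ℝ} (e : ∀ r, 0 < r → Ψ r = X.ψ r) {r : ℝ} (hr : 0 < r) :
    DifferentiableAt ℝ Ψ r ∧ DifferentiableAt ℝ (deriv Ψ) r ∧
      X.A * (deriv (deriv Ψ) r + 2 / r * deriv Ψ r) = X.W r * Ψ r := by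
  have d1 : ∀ s, 0 < s → HasDerivAt Ψ (-(X.g s * X.ψ s)) s := fun s hs =>
    (X.dψ s hs).congr_of_eventuallyEq ((lt_mem_nhds hs).mono e)
  have d2 := ((X.dk0 r hr).fun_mul (X.dψ r hr)).fun_neg.congr_of_eventuallyEq
    ((lt_mem_nhds hr).mono fun s hs => (d1 s hs).deriv)
  refine ⟨(d1 r hr).differentiableAt, d2.differentiableAt, ?_⟩
  have := X.hA
  rw [d2.deriv, (d1 r hr).deriv, e r hr, Rad.k]
  field_simp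
  ring

theorem final {p A γ z lam μ : ℝ} {ρ : R3 → ℝ} {U U1 : ℝ → ℝ} (hp : 1 < p) (hp' : p ≤ 5 / 3)
    (hA : 0 < A) (hγ : 0 < γ) (hz : 0 < z) (h0 : ∀ x, 0 ≤ ρ x) (hle : ∫ x, ρ x ≤ lam) (hμ : 0 ≤ μ)
    (hμ0 : ∫ x, ρ x < lam → μ = 0) (pos : ∀ r, 0 < r → 0 < U r)
    (L2 : IntegrableOn (fun r => U r ^ 2) (Ioi 0)) (d1 : ∀ r, 0 < r → HasDerivAt U (U1 r) r)
    (d2 : ∀ r, 0 < r → HasDerivAt U1 ((γ * (U r / r) ^ (2 * p - 2) -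
      wOf z (fun s => 4 * Real.pi * U s ^ 2) r / r + μ) / A * U r) r)
    (bc : Tendsto (fun r => U r - r * U1 r) (𝓝[>] 0) (𝓝 0))
    (mass : ∫ x, ρ x = ∫ r in Ioi (0 : ℝ), 4 * Real.pi * U r ^ 2)
    (link : ∀ᵐ x, √(ρ x) = U ‖x‖ / ‖x‖)
    (pot : ∀ x : R3, x ≠ 0 → ∫ y, ρ y / ‖x - y‖ =
      z / ‖x‖ - wOf z (fun s => 4 * Real.pi * U s ^ 2) ‖x‖ / ‖x‖) :
    ∃ ψ : ℝ → ℝ, (∀ᵐ x, √(ρ x) = ψ ‖x‖) ∧ ContinuousOn ψ (Ici 0) ∧ (∀ r, 0 ≤ r → 0 < ψ r) ∧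
      (∀ x : R3, x ≠ 0 → DifferentiableAt ℝ ψ ‖x‖ ∧ DifferentiableAt ℝ (deriv ψ) ‖x‖ ∧
        -A * (deriv (deriv ψ) ‖x‖ + 2 / ‖x‖ * deriv ψ ‖x‖) +
          (γ * ψ ‖x‖ ^ (2 * p - 2) - z / ‖x‖ + ∫ y, ψ ‖y‖ ^ 2 / ‖x - y‖) * ψ ‖x‖ = -μ * ψ ‖x‖) ∧
      (ConvexOn ℝ (Ici 0) (fun r => Real.log (ψ r)) ↔ μ = 0 ∨ z - lam ≤ 2 * √(A * μ)) := by
  obtain ⟨X, e1, e2, e3, e4, -, e6, e7, e8⟩ :=
    exists_rad hA hγ (show 0 < 2 * p - 2 by linarith) hμ hz pos L2 d1 d2 bc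
  obtain ⟨Ψ, e, hc, hpos, hk⟩ := X.extend
  have hl : ∀ᵐ x, √(ρ x) = Ψ ‖x‖ := by
    filter_upwards [link, compl_mem_ae_iff.2 (measure_singleton (μ := volume) (0 : R3))] with x h1 h2
    rw [h1, e _ (norm_pos_iff.2 h2), e7]
  refine ⟨Ψ, hl, hc, hpos, fun x hx => ?_, ?_⟩
  · obtain ⟨a, b, c⟩ := X.equation e (norm_pos_iff.2 hx)
    refine ⟨a, b, ?_⟩
    have h1 : ∫ y, Ψ ‖y‖ ^ 2 / ‖x - y‖ = ∫ y, ρ y / ‖x - y‖ :=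
      integral_congr_ae (hl.mono fun y hy => by simp only [← hy, Real.sq_sqrt (h0 y)])
    rw [Rad.W, Rad.y, ← e _ (norm_pos_iff.2 hx), e1, e2, e3, e4, e8] at c
    rw [h1, pot x hx]
    linarith
  · rw [hk, X.criterion (by linarith), e1, e4, e6, ← mass]
    refine or_congr_right' fun h => ?_
    rw [le_antisymm hle (not_lt.1 (mt hμ0 h))]

end Pool.Agent.P.MP_3d36e1_mp.Lc
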