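import Pool.Agent.P.MP_97b9bc_mp.T.Basic

/-! The radial system and its derived quantities. -/

set_option autoImplicit false

namespace Pool.Agent.P.MP_3d36e1_mp.Lc

open Set Filter Topology
open MP_97b9bc_mp.T (anti anti' maxp)

/-- a positive solution of the radial system: `g = -ψ'/ψ`, `w = r φ`, `v = w'` -/
structure Rad where
  A : ℝ
  γ : ℝ
  q : ℝ
  μ : ℝ
  z : ℝ
  L : ℝ
  ψ : ℝ → ℝ
  g : ℝ → ℝ
  w : ℝ → ℝ
  v : ℝ → ℝ
  hA : 0 < A
  hγ : 0 < γ
  hq : 0 < q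
  hμ : 0 ≤ μ
  hz : 0 < z
  pos : ∀ r, 0 < r → 0 < ψ r
  dψ : ∀ r, 0 < r → HasDerivAt ψ (-(g r * ψ r)) r
  dg : ∀ r, 0 < r →
    HasDerivAt g (-((γ * ψ r ^ q - w r / r + μ) / A + 2 * g r / r - g r ^ 2)) r
  dw : ∀ r, 0 < r → HasDerivAt w (v r) r
  dv : ∀ r, 0 < r → HasDerivAt v (4 * Real.pi * r * ψ r ^ 2) r
  rv : Tendsto (fun r => r * v r) atTop (𝓝 0)
  winf : Tendsto w atTop (𝓝 L)
  wle : ∀ r, 0 < r → w r ≤ z
  n0 : Tendsto (fun r => r ^ 2 * (g r * ψ r)) (𝓝[>] 0) (𝓝 0)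

lemma mono {f f' : ℝ → ℝ} {a b : ℝ} (ha : 0 < a) (hab : a ≤ b)
    (hd : ∀ r, 0 < r → HasDerivAt f (f' r) r) (h0 : ∀ r, a ≤ r → r < b → 0 ≤ f' r) :
    f a ≤ f b := by
  have := anti (f := fun r => -f r) (f' := fun r => -f' r) hab
    (fun r hr => (hd r (ha.trans_le hr.1)).fun_neg.continuousAt.continuousWithinAt)
    (fun r h1 _ => (hd r (ha.trans_le h1)).fun_neg.hasDerivWithinAt)
    (fun r h1 h2 => neg_nonpos.2 (h0 r h1 h2))
  linarith

lemma ant {f f' : ℝ → ℝ} {a b : ℝ} (ha : 0 < a) (hab : a ≤ b)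
    (hd : ∀ r, 0 < r → HasDerivAt f (f' r) r) (h0 : ∀ r, a ≤ r → r < b → f' r ≤ 0) :
    f b ≤ f a :=
  anti hab (fun r hr => (hd r (ha.trans_le hr.1)).continuousAt.continuousWithinAt)
    (fun r h1 _ => (hd r (ha.trans_le h1)).hasDerivWithinAt) h0

lemma smono {f f' : ℝ → ℝ} {a b : ℝ} (ha : 0 < a) (hab : a < b)
    (hd : ∀ r, 0 < r → HasDerivAt f (f' r) r) (h0 : ∀ r, a < r → r < b → 0 < f' r) :
    f a < f b := by
  obtain ⟨c, hc, e⟩ := exists_hasDerivAt_eq_slope f f' hab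
    (fun r hr => (hd r (ha.trans_le hr.1)).continuousAt.continuousWithinAt)
    (fun r hr => hd r (ha.trans hr.1))
  have := h0 c hc.1 hc.2
  rw [e, div_pos_iff_of_pos_right (sub_pos.2 hab)] at this
  linarith

/-- first point where a continuous function stops being positive -/
lemma first {f : ℝ → ℝ} {c t : ℝ} (hc : 0 < c) (hf : ∀ r, 0 < r → ContinuousAt f r)
    (hct : c ≤ t) (ht : f t ≤ 0) : ∃ b, c ≤ b ∧ f b ≤ 0 ∧ ∀ s, c ≤ s → s < b → 0 < f s := by
  have hcl : IsCompact (Icc c t ∩ f ⁻¹' Iic 0) :=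
    isCompact_Icc.of_isClosed_subset (ContinuousOn.preimage_isClosed_of_isClosed
      (fun r hr => (hf r (hc.trans_le hr.1)).continuousWithinAt) isClosed_Icc isClosed_Iic)
      inter_subset_left
  obtain ⟨b, hb, hm⟩ := hcl.exists_isLeast ⟨t, ⟨hct, le_rfl⟩, ht⟩
  refine ⟨b, hb.1.1, hb.2, fun s h1 h2 => ?_⟩
  by_contra h
  exact absurd (hm ⟨⟨h1, h2.le.trans hb.1.2⟩, not_lt.1 h⟩) (not_le.2 h2)

lemma stay {f : ℝ → ℝ} {c : ℝ} (hc : 0 < c) (hf : ∀ r, 0 < r → ContinuousAt f r)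
    (h : ∀ t, c ≤ t → (∀ s, c ≤ s → s < t → 0 < f s) → 0 < f t) (t : ℝ) (ht : c ≤ t) :
    0 < f t := by
  by_contra hn
  obtain ⟨b, h1, h2, h3⟩ := first hc hf ht (not_lt.1 hn)
  exact absurd (h b h1 h3) (not_lt.2 h2)

lemma up_cross {f f' : ℝ → ℝ} {a b m : ℝ} (ha : 0 < a) (hab : a < b)
    (hd : ∀ r, 0 < r → HasDerivAt f (f' r) r) (h1 : f a ≤ m) (h2 : m < f b) :
    ∃ c, a ≤ c ∧ m ≤ f c ∧ 0 < f' c := by
  by_contra hn
  push Not at hn
  have hδ : 0 < (f b - m) / (2 * (b - a)) := by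
    have := sub_pos.2 hab
    have := sub_pos.2 h2
    positivity
  have := image_le_of_deriv_right_lt_deriv_boundary (f := f) (f' := f') (a := a) (b := b)
    (B := fun x => m + (f b - m) / (2 * (b - a)) * (x - a))
    (B' := fun _ => (f b - m) / (2 * (b - a)))
    (fun r hr => (hd r (ha.trans_le hr.1)).continuousAt.continuousWithinAt)
    (fun r hr => (hd r (ha.trans_le hr.1)).hasDerivWithinAt) (by simpa using h1)
    (fun x => by simpa using (((hasDerivAt_id' x).sub_const a).const_mul _).const_add m)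
    (fun x hx e => (hn x hx.1 (by
      rw [e]
      have := mul_nonneg hδ.le (sub_nonneg.2 hx.1)
      linarith)).trans_lt hδ) (right_mem_Icc.2 hab.le)
  have e : (f b - m) / (2 * (b - a)) * (b - a) = (f b - m) / 2 := by
    have := (sub_pos.2 hab).ne'
    field_simp
  simp only [e] at this
  linarith

lemma left_nonneg {f : ℝ → ℝ} {f' c b : ℝ} (hcb : c < b) (hd : HasDerivAt f f' b)
    (h : ∀ s, c ≤ s → s < b → f s ≤ f b) : 0 ≤ f' := by
  refine ge_of_tendsto (hasDerivAt_iff_tendsto_slope_left_right.1 hd).1 ?_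
  filter_upwards [Ico_mem_nhdsLT hcb] with s hs
  rw [slope_def_field]
  exact div_nonneg_of_nonpos (sub_nonpos.2 (h s hs.1 hs.2)) (sub_nonpos.2 hs.2.le)

/-- a function whose derivative stays below a negative number becomes negative -/
lemma sink {f f' : ℝ → ℝ} {R η : ℝ} (hR : 0 < R) (hη : 0 < η)
    (hd : ∀ r, R ≤ r → HasDerivAt f (f' r) r) (h : ∀ r, R ≤ r → f' r ≤ -η) (c : ℝ) :
    ∃ r, R ≤ r ∧ f r < c := by
  have h0 : 0 ≤ (|f R - c| + 1) / η := by positivity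
  refine ⟨R + (|f R - c| + 1) / η, by linarith, ?_⟩
  have := anti' (f := fun r => f r + η * r) (f' := fun r => f' r + η * 1)
    (show R ≤ R + (|f R - c| + 1) / η by linarith)
    (fun r hr _ => (hd r hr).fun_add ((hasDerivAt_id' r).const_mul η))
    (fun r hr _ => by linarith [h r hr])
  have e : η * (R + (|f R - c| + 1) / η) = η * R + (|f R - c| + 1) := by field_simp
  have := le_abs_self (f R - c)
  linarith

namespace Rad

variable (X : Rad)

/-- local potential -/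
noncomputable def y (r : ℝ) : ℝ := X.γ * X.ψ r ^ X.q
/-- total potential -/
noncomputable def W (r : ℝ) : ℝ := X.y r - X.w r / r + X.μ
/-- second derivative of the logarithm -/
noncomputable def k (r : ℝ) : ℝ := X.W r / X.A + 2 * X.g r / r - X.g r ^ 2
/-- net charge inside radius `r` -/
def Pn (r : ℝ) : ℝ := X.w r - r * X.v r
/-- first auxiliary function -/
noncomputable def G (r : ℝ) : ℝ := r ^ 2 * X.ψ r ^ 2 * X.k r
/-- second auxiliary function -/
noncomputable def F (r : ℝ) : ℝ := X.Pn r - 2 * X.A * X.g r - X.q * X.g r * X.y r * r ^ 2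
/-- ratio of local potential and density -/
noncomputable def Y (r : ℝ) : ℝ := X.y r / X.ψ r ^ 2
/-- third auxiliary function -/
noncomputable def J (r : ℝ) : ℝ := X.Y r * (X.k r + X.q * X.g r ^ 2 - 2 * X.g r / r)
/-- derivative of `F` -/
noncomputable def F1 (r : ℝ) : ℝ :=
  2 * X.A * X.k r + r ^ 2 * X.ψ r ^ 2 * (X.q * X.J r - 4 * Real.pi)

variable {r : ℝ}

lemma ypos (hr : 0 < r) : 0 < X.y r := mul_pos X.hγ (Real.rpow_pos_of_pos (X.pos r hr) _)

lemma Ypos (hr : 0 < r) : 0 < X.Y r := div_pos (X.ypos hr) (pow_pos (X.pos r hr) 2)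

lemma dy (r : ℝ) (hr : 0 < r) : HasDerivAt X.y (-(X.q * X.g r * X.y r)) r := by
  have h := X.pos r hr
  refine (((X.dψ r hr).rpow_const (p := X.q) (Or.inl h.ne')).const_mul X.γ).congr_deriv ?_
  rw [Real.rpow_sub_one h.ne', y]
  field_simp

lemma dk0 (r : ℝ) (hr : 0 < r) : HasDerivAt X.g (-X.k r) r := X.dg r hr

lemma dP (r : ℝ) (hr : 0 < r) : HasDerivAt X.Pn (-(4 * Real.pi * (r ^ 2 * X.ψ r ^ 2))) r :=
  ((X.dw r hr).fun_sub ((hasDerivAt_id' r).fun_mul (X.dv r hr))).congr_deriv (by ring)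

lemma dU (r : ℝ) (hr : 0 < r) : HasDerivAt (fun r => X.w r / r) (-(X.Pn r / r ^ 2)) r :=
  ((X.dw r hr).fun_div (hasDerivAt_id' r) hr.ne').congr_deriv (by unfold Pn; ring)

lemma dW (r : ℝ) (hr : 0 < r) :
    HasDerivAt X.W (-(X.q * X.g r * X.y r) + X.Pn r / r ^ 2) r :=
  (((X.dy r hr).fun_sub (X.dU r hr)).add_const X.μ).congr_deriv (by ring)

lemma dgr (r : ℝ) (hr : 0 < r) :
    HasDerivAt (fun r => 2 * X.g r / r) (-(2 * X.k r / r) - 2 * X.g r / r ^ 2) r :=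
  (((X.dk0 r hr).const_mul 2).fun_div (hasDerivAt_id' r) hr.ne').congr_deriv (by field_simp)

lemma dk (r : ℝ) (hr : 0 < r) :
    HasDerivAt X.k ((2 * X.g r - 2 / r) * X.k r + X.F r / (X.A * r ^ 2)) r := by
  have := X.hA
  refine ((((X.dW r hr).div_const X.A).fun_add (X.dgr r hr)).fun_sub
    ((X.dk0 r hr).fun_pow 2)).congr_deriv ?_
  unfold F
  push_cast
  field_simp
  ring

lemma dm (r : ℝ) (hr : 0 < r) : HasDerivAt (fun r => r ^ 2 * X.ψ r ^ 2)
    ((2 / r - 2 * X.g r) * (r ^ 2 * X.ψ r ^ 2)) r := by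
  refine (((hasDerivAt_id' r).fun_pow 2).fun_mul ((X.dψ r hr).fun_pow 2)).congr_deriv ?_
  push_cast
  field_simp
  ring

lemma dG (r : ℝ) (hr : 0 < r) : HasDerivAt X.G (X.ψ r ^ 2 * X.F r / X.A) r := by
  have := X.hA
  refine ((X.dm r hr).fun_mul (X.dk r hr)).congr_deriv ?_
  field_simp
  ring

lemma dY (r : ℝ) (hr : 0 < r) : HasDerivAt X.Y ((2 - X.q) * X.g r * X.Y r) r := by
  have h := X.pos r hr
  refine ((X.dy r hr).fun_div ((X.dψ r hr).fun_pow 2) (pow_pos h 2).ne').congr_deriv ?_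
  unfold Y
  push_cast
  field_simp
  ring

lemma dF (r : ℝ) (hr : 0 < r) : HasDerivAt X.F (X.F1 r) r := by
  have h := X.pos r hr
  refine (((X.dP r hr).fun_sub ((X.dk0 r hr).const_mul (2 * X.A))).fun_sub
    ((((X.dk0 r hr).const_mul X.q).fun_mul (X.dy r hr)).fun_mul
      ((hasDerivAt_id' r).fun_pow 2))).congr_deriv ?_
  unfold F1 J Y
  push_cast
  field_simp
  ring

lemma dJ (r : ℝ) (hr : 0 < r) : HasDerivAt X.J ((2 - X.q) * X.g r * X.J r + X.Y r *
    ((2 - 2 * X.q) * X.g r * X.k r + 2 * X.g r / r ^ 2 + X.F r / (X.A * r ^ 2))) r := by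
  refine ((X.dY r hr).fun_mul (((X.dk r hr).fun_add
    (((X.dk0 r hr).fun_pow 2).const_mul X.q)).fun_sub (X.dgr r hr))).congr_deriv ?_
  unfold J
  push_cast
  ring

lemma dh (r : ℝ) (hr : 0 < r) : HasDerivAt (fun r => r ^ 2 * (X.g r * X.ψ r))
    (-(r ^ 2 * X.ψ r * X.W r / X.A)) r := by
  have := X.hA
  refine (((hasDerivAt_id' r).fun_pow 2).fun_mul
    ((X.dk0 r hr).fun_mul (X.dψ r hr))).congr_deriv ?_
  unfold k
  push_cast
  field_simp
  ring

lemma Plim : Tendsto X.Pn atTop (𝓝 X.L) := by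
  have := X.winf.sub X.rv
  rwa [sub_zero] at this

lemma P_anti {a b : ℝ} (ha : 0 < a) (hab : a ≤ b) : X.Pn b ≤ X.Pn a :=
  ant ha hab X.dP fun r _ _ => neg_nonpos.2 (by positivity)

lemma small {ε : ℝ} (hε : 0 < ε) {R : ℝ} (hR : 0 < R) : ∃ r, R ≤ r ∧ r ^ 2 * X.ψ r ^ 2 < ε := by
  by_contra hn
  push Not at hn
  obtain ⟨r, h1, h2⟩ := sink hR (show 0 < 4 * Real.pi * ε by positivity)
    (fun r hr => X.dP r (hR.trans_le hr))
    (fun r hr => neg_le_neg (mul_le_mul_of_nonneg_left (hn r hr) (by positivity))) X.L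
  refine absurd h2 (not_lt.2 (le_of_tendsto X.Plim ?_))
  filter_upwards [eventually_ge_atTop r] with s hs using X.P_anti (hR.trans_le h1) hs

lemma Ulim : Tendsto (fun r => X.w r / r) atTop (𝓝 0) := X.winf.div_atTop tendsto_id

lemma quasi {c s : ℝ} (hc : 0 < c) (hcs : c ≤ s) : X.w s / s ≤ max (X.w c / c) 0 := by
  rcases le_total 0 (X.Pn s) with h | h
  · refine le_max_of_le_left (ant hc hcs X.dU fun r h1 h2 => neg_nonpos.2 ?_)
    exact div_nonneg (h.trans (X.P_anti (hc.trans_le h1) h2.le)) (sq_nonneg r)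
  · refine le_max_of_le_right (ge_of_tendsto X.Ulim ?_)
    filter_upwards [eventually_ge_atTop s] with t ht
    refine mono (hc.trans_le hcs) ht X.dU fun r h1 _ => neg_nonneg.2 ?_
    exact div_nonpos_of_nonpos_of_nonneg ((X.P_anti (hc.trans_le hcs) h1).trans h) (sq_nonneg r)

/-- the root of the density decreases -/
theorem g_nonneg (hr : 0 < r) : 0 ≤ X.g r := by
  by_contra hn
  push Not at hn
  have hA := X.hA
  have h1 : 0 < -(r ^ 2 * (X.g r * X.ψ r)) :=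
    neg_pos.2 (mul_neg_of_pos_of_neg (by positivity) (mul_neg_of_neg_of_pos hn (X.pos r hr)))
  have dh : ∀ s, 0 < s → HasDerivAt (fun r => -(r ^ 2 * (X.g r * X.ψ r)))
      (s ^ 2 * X.ψ s * X.W s / X.A) s := fun s hs => (X.dh s hs).fun_neg.congr_deriv (neg_neg _)
  have h2 := X.n0.neg
  rw [neg_zero] at h2
  obtain ⟨a, ha, ha'⟩ := ((h2.eventually (gt_mem_nhds (half_pos h1))).and
    (Ioo_mem_nhdsGT hr)).exists
  obtain ⟨c, hc1, hc2, hc3⟩ := up_cross ha'.1 ha'.2 dh ha.le (half_lt_self h1)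
  have hc : 0 < c := ha'.1.trans_le hc1
  have hψc := X.pos c hc
  have hWc : 0 < X.W c := by
    by_contra h
    have := div_nonpos_of_nonpos_of_nonneg (mul_nonpos_of_nonneg_of_nonpos
      (show 0 ≤ c ^ 2 * X.ψ c by positivity) (not_lt.1 h)) hA.le
    linarith
  have gneg : ∀ s, 0 < s → 0 < -(s ^ 2 * (X.g s * X.ψ s)) → X.g s ≤ 0 := fun s hs h => by
    by_contra h'
    have := X.pos s hs
    have : 0 < s ^ 2 * (X.g s * X.ψ s) := by
      have := not_le.1 h'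
      positivity
    linarith
  have key := stay hc (fun s hs => (dh s hs).continuousAt) fun t ht h => by
    refine ((half_pos h1).trans_le hc2).trans_le (mono (f := fun r => -(r ^ 2 * (X.g r * X.ψ r)))
      hc ht dh fun s h3 h4 => ?_)
    have hs := hc.trans_le h3
    have h5 : X.y c ≤ X.y s := mono hc h3 X.dy fun u h6 h7 => neg_nonneg.2
      (mul_nonpos_of_nonpos_of_nonneg (mul_nonpos_of_nonneg_of_nonpos X.hq.le
        (gneg u (hc.trans_le h6) (h u h6 (h7.trans h4)))) (X.ypos (hc.trans_le h6)).le)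
    have h6 := X.quasi hc h3
    have h7 := X.ypos hc
    have h8 := X.hμ
    have h9 : 0 ≤ X.W s := by
      unfold W at hWc ⊢
      rcases le_max_iff.1 h6 with h | h <;> linarith
    have := X.pos s hs
    positivity
  obtain ⟨s, hs1, hs2⟩ := X.small (show 0 < c ^ 2 * X.ψ c ^ 2 by positivity) hc
  have h5 : X.ψ c ≤ X.ψ s := mono hc hs1 X.dψ fun u h6 _ => neg_nonneg.2
    (mul_nonpos_of_nonpos_of_nonneg (gneg u (hc.trans_le h6) (key u h6))
      (X.pos u (hc.trans_le h6)).le)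
  have : c ^ 2 * X.ψ c ^ 2 ≤ s ^ 2 * X.ψ s ^ 2 := by gcongr
  linarith

lemma ψ_anti {a b : ℝ} (ha : 0 < a) (hab : a ≤ b) : X.ψ b ≤ X.ψ a :=
  ant ha hab X.dψ fun r h _ => neg_nonpos.2
    (mul_nonneg (X.g_nonneg (ha.trans_le h)) (X.pos r (ha.trans_le h)).le)

lemma ψlim : Tendsto X.ψ atTop (𝓝 0) := by
  refine tendsto_order.2 ⟨fun a ha => ?_, fun a ha => ?_⟩
  · filter_upwards [eventually_gt_atTop 0] with r hr using ha.trans (X.pos r hr)
  · obtain ⟨r, h1, h2⟩ := X.small (show 0 < a ^ 2 by positivity) one_pos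
    have hr : 0 < r := one_pos.trans_le h1
    filter_upwards [eventually_ge_atTop r] with s hs
    refine (X.ψ_anti hr hs).trans_lt (lt_of_pow_lt_pow_left₀ 2 ha.le (lt_of_le_of_lt ?_ h2))
    exact le_mul_of_one_le_left (sq_nonneg _) (one_le_pow₀ h1)

lemma Wlim : Tendsto X.W atTop (𝓝 X.μ) := by
  have := (((X.ψlim.rpow_const (p := X.q) (Or.inr X.hq.le)).const_mul X.γ).sub X.Ulim).add_const X.μ
  rw [Real.zero_rpow X.hq.ne', mul_zero, sub_zero, zero_add] at this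
  exact this

end Rad

end Pool.Agent.P.MP_3d36e1_mp.Lc
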